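import Pool.Agent.Q135.OP.Core

/-!
# Project OP, job INV, part 2: rational functions
-/

set_option autoImplicit false
set_option linter.unusedSectionVars false
set_option linter.unusedVariables false

namespace Pool.Agent.Q135.OP

open Finset Polynomial

variable {Ω : Type*} [NormedField Ω] [IsUltrametricDist Ω]

theorem norm_sum_lt' {ι : Type*} (S : Finset ι) (f : ι → Ω) {C : ℝ} (hC : 0 < C)
    (h : ∀ x ∈ S, ‖f x‖ < C) : ‖∑ x ∈ S, f x‖ < C := by
  classical
  induction S using Finset.induction_on with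
  | empty => simpa using hC
  | insert x S hx ih =>
    rw [Finset.sum_insert hx]
    exact (IsUltrametricDist.norm_add_le_max _ _).trans_lt (max_lt (h x (mem_insert_self _ _))
      (ih fun y hy => h y (mem_insert_of_mem hy)))

theorem norm_eq_of_sub_lt {a b : Ω} (h : ‖a - b‖ < ‖b‖) : ‖a‖ = ‖b‖ := by
  apply le_antisymm
  · have := IsUltrametricDist.norm_add_le_max b (a - b)
    rw [add_sub_cancel] at this
    exact this.trans (max_le le_rfl h.le)
  · have := norm_sub_le_max' a (a - b)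
    rw [sub_sub_cancel] at this
    rcases le_max_iff.1 this with h1 | h1
    · exact h1
    · exact absurd h (not_lt.2 h1)

theorem norm_int (hn : ∀ n : ℕ, n ≠ 0 → ‖(n : Ω)‖ = 1) (N : ℤ) (hN : N ≠ 0) : ‖(N : Ω)‖ = 1 := by
  rcases Int.natAbs_eq N with h | h
  · rw [h, Int.cast_natCast]
    exact hn _ (by simpa using hN)
  · rw [h, Int.cast_neg, Int.cast_natCast, norm_neg]
    exact hn _ (by simpa using hN)

theorem norm_int_le (hn : ∀ n : ℕ, n ≠ 0 → ‖(n : Ω)‖ = 1) (N : ℤ) : ‖(N : Ω)‖ ≤ 1 := by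
  rcases eq_or_ne N 0 with rfl | h
  · simp
  · exact (norm_int hn N h).le

theorem est (hn : ∀ n : ℕ, n ≠ 0 → ‖(n : Ω)‖ = 1) (S : Finset Ω) (ν : Ω → ℤ) (c z : Ω) {t s : ℝ}
    (ht : 0 < t) (hts : t < s) (hz : ‖z - c‖ = t) (hS : ∀ x ∈ S, ‖x - c‖ < s → ‖x - c‖ < t)
    (hN : Num S ν c s ≠ 0) : ‖∑ x ∈ S, (ν x : Ω) * (z - x)⁻¹‖ = t⁻¹ := by
  classical
  have hzc : z - c ≠ 0 := fun h => by rw [h, norm_zero] at hz; exact ht.ne hz
  have hdist : ∀ x ∈ S, ‖x - c‖ < s → ‖z - x‖ = t := fun x hx h => by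
    rw [← hz]
    apply norm_eq_of_sub_lt
    rw [sub_sub_sub_cancel_left, norm_sub_rev, hz]
    exact hS x hx h
  have hdist2 : ∀ x ∈ S, ¬ ‖x - c‖ < s → ‖z - x‖ = ‖x - c‖ := fun x hx h => by
    rw [not_lt] at h
    rw [norm_sub_rev]
    apply norm_eq_of_sub_lt
    rw [sub_sub_sub_cancel_left, norm_sub_rev, hz]
    exact hts.trans_le h
  have hmain : ‖∑ x ∈ S, (ν x : Ω) * (z - x)⁻¹ - (Num S ν c s : Ω) * (z - c)⁻¹‖ < t⁻¹ := by
    unfold Num
    rw [Finset.sum_filter, Int.cast_sum, Finset.sum_mul, ← Finset.sum_sub_distrib]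
    refine norm_sum_lt' S _ (inv_pos.2 ht) fun x hx => ?_
    split_ifs with h
    · rw [← mul_sub, norm_mul]
      have h1 : z - x ≠ 0 := fun h' => by
        have := hdist x hx h
        rw [h', norm_zero] at this
        exact ht.ne this
      have h2 : (z - x)⁻¹ - (z - c)⁻¹ = (x - c) * ((z - x)⁻¹ * (z - c)⁻¹) := by
        field_simp
        ring
      have h3 : ‖(z - x)⁻¹ - (z - c)⁻¹‖ < t⁻¹ := by
        rw [h2, norm_mul, norm_mul, norm_inv, norm_inv, hdist x hx h, hz]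
        have h4 := hS x hx h
        have h5 : 0 < t⁻¹ * t⁻¹ := mul_pos (inv_pos.2 ht) (inv_pos.2 ht)
        calc ‖x - c‖ * (t⁻¹ * t⁻¹) < t * (t⁻¹ * t⁻¹) := mul_lt_mul_of_pos_right h4 h5
          _ = t⁻¹ := by field_simp
      calc ‖(ν x : Ω)‖ * ‖(z - x)⁻¹ - (z - c)⁻¹‖ ≤ 1 * ‖(z - x)⁻¹ - (z - c)⁻¹‖ :=
            mul_le_mul_of_nonneg_right (norm_int_le hn _) (norm_nonneg _)
        _ < t⁻¹ := by rwa [one_mul]
    · rw [Int.cast_zero, zero_mul, sub_zero, norm_mul, norm_inv, hdist2 x hx h]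
      rw [not_lt] at h
      calc ‖(ν x : Ω)‖ * ‖x - c‖⁻¹ ≤ 1 * ‖x - c‖⁻¹ :=
            mul_le_mul_of_nonneg_right (norm_int_le hn _) (inv_nonneg.2 (norm_nonneg _))
        _ < t⁻¹ := by
            rw [one_mul]
            exact (inv_lt_inv₀ (ht.trans (hts.trans_le h)) ht).2 (hts.trans_le h)
  have hNn : ‖(Num S ν c s : Ω) * (z - c)⁻¹‖ = t⁻¹ := by
    rw [norm_mul, norm_int hn _ hN, one_mul, norm_inv, hz]
  rw [← hNn]
  apply norm_eq_of_sub_lt
  rw [hNn]
  exact hmain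

/-- the multiplicity of a root -/
noncomputable def mu (P : Polynomial Ω) (x : Ω) : ℤ := (P.rootMultiplicity x : ℤ)

variable [IsAlgClosed Ω]

theorem norm_eval (P : Polynomial Ω) (hP : P ≠ 0) (S : Finset Ω) (hS : ∀ x, P.eval x = 0 → x ∈ S) (z : Ω) :
    ‖P.eval z‖ = ‖P.leadingCoeff‖ * ∏ x ∈ S, ‖z - x‖ ^ mu P x := by
  classical
  rw [(IsAlgClosed.splits P).eval_eq_prod_roots z, norm_mul, Finset.prod_multiset_map_count,
    norm_prod]
  congr 1
  have hsub : P.roots.toFinset ⊆ S := fun x hx => by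
    rw [Multiset.mem_toFinset, mem_roots hP] at hx
    exact hS x hx
  rw [← Finset.prod_subset hsub]
  · refine Finset.prod_congr rfl fun x _ => ?_
    rw [norm_pow, count_roots]
    exact (zpow_natCast _ _).symm
  · intro x _ hx
    rw [Multiset.mem_toFinset, ← Multiset.count_eq_zero, count_roots] at hx
    unfold mu
    rw [hx]
    simp

theorem sum_eval (P : Polynomial Ω) (hP : P ≠ 0) (S : Finset Ω) (hS : ∀ x, P.eval x = 0 → x ∈ S) (z : Ω) :
    (P.roots.map fun x => 1 / (z - x)).sum = ∑ x ∈ S, (mu P x : Ω) * (z - x)⁻¹ := by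
  classical
  rw [Finset.sum_multiset_map_count]
  have hsub : P.roots.toFinset ⊆ S := fun x hx => by
    rw [Multiset.mem_toFinset, mem_roots hP] at hx
    exact hS x hx
  rw [← Finset.sum_subset hsub]
  · refine Finset.sum_congr rfl fun x _ => ?_
    rw [count_roots, nsmul_eq_mul, one_div]
    unfold mu
    rw [Int.cast_natCast]
  · intro x _ hx
    rw [Multiset.mem_toFinset, ← Multiset.count_eq_zero, count_roots] at hx
    unfold mu
    rw [hx]
    simp

theorem sum_mu (P : Polynomial Ω) (hP : P ≠ 0) (S : Finset Ω) (hS : ∀ x, P.eval x = 0 → x ∈ S) :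
    ∑ x ∈ S, mu P x = (P.natDegree : ℤ) := by
  classical
  unfold mu
  rw [← Nat.cast_sum]
  congr 1
  rw [(IsAlgClosed.splits P).natDegree_eq_card_roots, ← Multiset.sum_count_eq_card (s := S)]
  · exact Finset.sum_congr rfl fun x _ => (count_roots _).symm
  · intro x hx
    rw [mem_roots hP] at hx
    exact hS x hx

theorem eval_wr (A B : Polynomial Ω) (hA : A ≠ 0) (hB : B ≠ 0) (S : Finset Ω)
    (hSA : ∀ x, A.eval x = 0 → x ∈ S) (hSB : ∀ x, B.eval x = 0 → x ∈ S) (z : Ω) (hz : z ∉ S) :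
    (derivative A * B - A * derivative B).eval z =
      A.eval z * B.eval z * ∑ x ∈ S, ((mu A x - mu B x : ℤ) : Ω) * (z - x)⁻¹ := by
  have hAz : A.eval z ≠ 0 := fun h => hz (hSA z h)
  have hBz : B.eval z ≠ 0 := fun h => hz (hSB z h)
  rw [eval_sub, eval_mul, eval_mul, (IsAlgClosed.splits A).eval_derivative_eq_eval_mul_sum hAz,
    (IsAlgClosed.splits B).eval_derivative_eq_eval_mul_sum hBz, sum_eval A hA S hSA,
    sum_eval B hB S hSB]
  simp_rw [Int.cast_sub, sub_mul]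
  rw [Finset.sum_sub_distrib]
  ring

theorem exists_between (hx : ∃ x : Ω, x ≠ 0 ∧ ‖x‖ < 1) {a b : ℝ} (ha : 0 < a) (hab : a < b) :
    ∃ z : Ω, a < ‖z‖ ∧ ‖z‖ < b := by
  obtain ⟨x, hx0, hx1⟩ := hx
  have hq : 0 < ‖x‖ := norm_pos_iff.2 hx0
  have hb : 0 < b := ha.trans hab
  obtain ⟨n, hn⟩ := exists_pow_lt_of_lt_one hq ((div_lt_one hb).2 hab)
  have hn0 : 0 < n := by
    rcases Nat.eq_zero_or_pos n with h | h
    · rw [h, pow_zero] at hn
      exact absurd hn (not_lt.2 hx1.le)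
    · exact h
  obtain ⟨y, hy⟩ := IsAlgClosed.exists_pow_nat_eq x hn0
  have hyn : ‖y‖ ^ n = ‖x‖ := by rw [← norm_pow, hy]
  have hy1 : ‖y‖ < 1 := by
    by_contra hc
    have := one_le_pow₀ (not_lt.1 hc) (n := n)
    rw [hyn] at this
    exact absurd hx1 (not_lt.2 this)
  have hy2 : a / b < ‖y‖ := by
    by_contra hc
    have := pow_le_pow_left₀ (norm_nonneg y) (not_lt.1 hc) n
    rw [hyn] at this
    exact absurd hn (not_lt.2 this)
  have hy0 : 0 < ‖y‖ := (div_pos ha hb).trans hy2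
  have hY1 : 1 < ‖y‖⁻¹ := (one_lt_inv₀ hy0).2 hy1
  obtain ⟨k, hk1, hk2⟩ := exists_mem_Ico_zpow ha hY1
  refine ⟨(y⁻¹) ^ (k + 1), ?_, ?_⟩
  · rw [norm_zpow, norm_inv]; exact hk2
  · rw [norm_zpow, norm_inv, zpow_add_one₀ (by positivity)]
    have h1 : ‖y‖⁻¹ < b / a := by
      rw [inv_lt_comm₀ hy0 (div_pos hb ha), inv_div]
      exact hy2
    calc ‖y‖⁻¹ ^ k * ‖y‖⁻¹ ≤ a * ‖y‖⁻¹ := mul_le_mul_of_nonneg_right hk1 (by positivity)
      _ < a * (b / a) := mul_lt_mul_of_pos_left h1 ha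
      _ = b := by field_simp

/-- Riemann-Hurwitz for discs -/
theorem hurwitz (hn : ∀ n : ℕ, n ≠ 0 → ‖(n : Ω)‖ = 1) (hx : ∃ x : Ω, x ≠ 0 ∧ ‖x‖ < 1)
    (A B W : Polynomial Ω) (hA : A ≠ 0) (hB : B ≠ 0) (hW : W = derivative A * B - A * derivative B)
    (S : Finset Ω) (hSA : ∀ x, A.eval x = 0 → x ∈ S) (hSB : ∀ x, B.eval x = 0 → x ∈ S)
    (hSW : W ≠ 0 → ∀ x, W.eval x = 0 → x ∈ S) (c : Ω) (s : ℝ) (hs : 0 < s)
    (hN : Num S (fun x => mu A x - mu B x) c s ≠ 0) :
    W ≠ 0 ∧ Num S (fun x => mu A x + mu B x - mu W x) c s = 1 := by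
  obtain ⟨s₀, h1, h2, h3⟩ := gap_below S c hs
  have hval : ∀ P : Polynomial Ω, P ≠ 0 → (∀ x, P.eval x = 0 → x ∈ S) → ∀ z : Ω, s₀ < ‖z - c‖ →
      ‖z - c‖ < s → ‖P.eval z‖ = ‖P.leadingCoeff‖ * Psi S (mu P) c ‖z - c‖ := by
    intro P hP hSP z hz1 hz2
    rw [norm_eval P hP S hSP z]
    unfold Psi
    congr 1
    refine Finset.prod_congr rfl fun x hx => ?_
    congr 1
    rcases lt_or_ge ‖x - c‖ s with h | h
    · have h4 := h3 x hx h
      rw [max_eq_left (h4.trans hz1.le)]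
      apply norm_eq_of_sub_lt
      rw [sub_sub_sub_cancel_left, norm_sub_rev]
      exact h4.trans_lt hz1
    · rw [max_eq_right (hz2.le.trans h), norm_sub_rev]
      apply norm_eq_of_sub_lt
      rw [sub_sub_sub_cancel_left, norm_sub_rev]
      exact hz2.trans_le h
  have hzS : ∀ z : Ω, s₀ < ‖z - c‖ → ‖z - c‖ < s → z ∉ S := fun z hz1 hz2 hzS =>
    absurd (h3 z hzS hz2) (not_le.2 hz1)
  have hWz : ∀ z : Ω, s₀ < ‖z - c‖ → ‖z - c‖ < s →
      ‖W.eval z‖ = ‖A.leadingCoeff‖ * Psi S (mu A) c ‖z - c‖ *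
        (‖B.leadingCoeff‖ * Psi S (mu B) c ‖z - c‖) * ‖z - c‖⁻¹ := fun z hz1 hz2 => by
    rw [hW, eval_wr A B hA hB S hSA hSB z (hzS z hz1 hz2), norm_mul, norm_mul,
      hval A hA hSA z hz1 hz2, hval B hB hSB z hz1 hz2,
      est hn S (fun x => mu A x - mu B x) c z (h1.trans hz1) hz2 rfl
        (fun x hx h => (h3 x hx h).trans_lt hz1) hN]
  have hlA : 0 < ‖A.leadingCoeff‖ := norm_pos_iff.2 (leadingCoeff_ne_zero.2 hA)
  have hlB : 0 < ‖B.leadingCoeff‖ := norm_pos_iff.2 (leadingCoeff_ne_zero.2 hB)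
  obtain ⟨y₁, hy1, hy2⟩ := exists_between hx h1 h2
  obtain ⟨y₂, hy3, hy4⟩ := exists_between hx (h1.trans hy1) hy2
  have e1 : ‖y₁ + c - c‖ = ‖y₁‖ := by rw [add_sub_cancel_right]
  have e2 : ‖y₂ + c - c‖ = ‖y₂‖ := by rw [add_sub_cancel_right]
  have hy10 : 0 < ‖y₁‖ := h1.trans hy1
  have hy20 : 0 < ‖y₂‖ := hy10.trans hy3
  have g1 := hWz (y₁ + c) (by rwa [e1]) (by rwa [e1])
  have g2 := hWz (y₂ + c) (by rw [e2]; exact hy1.trans hy3) (by rw [e2]; exact hy4)
  rw [e1] at g1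
  rw [e2] at g2
  have hW0 : W ≠ 0 := fun h => by
    rw [h, eval_zero, norm_zero] at g1
    have : 0 < ‖A.leadingCoeff‖ * Psi S (mu A) c ‖y₁‖ *
        (‖B.leadingCoeff‖ * Psi S (mu B) c ‖y₁‖) * ‖y₁‖⁻¹ :=
      mul_pos (mul_pos (mul_pos hlA (Psi_pos _ _ _ hy10)) (mul_pos hlB (Psi_pos _ _ _ hy10)))
        (inv_pos.2 hy10)
    exact this.ne g1
  refine ⟨hW0, ?_⟩
  have hlW : 0 < ‖W.leadingCoeff‖ := norm_pos_iff.2 (leadingCoeff_ne_zero.2 hW0)
  have w1 := hval W hW0 (hSW hW0) (y₁ + c) (by rwa [e1]) (by rwa [e1])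
  have w2 := hval W hW0 (hSW hW0) (y₂ + c) (by rw [e2]; exact hy1.trans hy3) (by rw [e2]; exact hy4)
  rw [e1] at w1
  rw [e2] at w2
  rw [w1] at g1
  rw [w2] at g2
  have hsplit : ∀ t : ℝ, 0 < t → Psi S (fun x => mu A x + mu B x - mu W x) c t =
      Psi S (mu A) c t * Psi S (mu B) c t / Psi S (mu W) c t := fun t ht => by
    unfold Psi
    rw [← Finset.prod_mul_distrib, ← Finset.prod_div_distrib]
    refine Finset.prod_congr rfl fun x _ => ?_
    have : max t ‖x - c‖ ≠ 0 := (lt_max_of_lt_left ht).ne'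
    rw [zpow_sub₀ this, zpow_add₀ this]
  have hlin : ∀ t : ℝ, 0 < t → ‖W.leadingCoeff‖ * Psi S (mu W) c t =
      ‖A.leadingCoeff‖ * Psi S (mu A) c t * (‖B.leadingCoeff‖ * Psi S (mu B) c t) * t⁻¹ →
      Psi S (fun x => mu A x + mu B x - mu W x) c t =
        ‖W.leadingCoeff‖ / (‖A.leadingCoeff‖ * ‖B.leadingCoeff‖) * t := fun t ht h => by
    rw [hsplit t ht]
    have p1 := Psi_pos S (mu A) c ht
    have p2 := Psi_pos S (mu B) c ht
    have p3 := Psi_pos S (mu W) c ht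
    rw [div_eq_iff p3.ne']
    field_simp
    field_simp at h
    linarith
  have k1 := hlin _ hy10 g1
  have k2 := hlin _ hy20 g2
  rw [Psi_ratio S _ c hy10 hy2.le fun x hx h => (h3 x hx h).trans hy1.le] at k1
  rw [Psi_ratio S _ c hy20 hy4.le fun x hx h => (h3 x hx h).trans (hy1.trans hy3).le] at k2
  set M := Num S (fun x => mu A x + mu B x - mu W x) c s with hM
  set P := Psi S (fun x => mu A x + mu B x - mu W x) c s with hP
  have hPp : 0 < P := Psi_pos _ _ _ hs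
  have hL : 0 < ‖W.leadingCoeff‖ / (‖A.leadingCoeff‖ * ‖B.leadingCoeff‖) := by positivity
  have h5 : (‖y₁‖ / ‖y₂‖) ^ M = (‖y₁‖ / ‖y₂‖) ^ (1 : ℤ) := by
    have h6 : ‖y₁‖ / ‖y₂‖ = (‖y₁‖ / s) / (‖y₂‖ / s) := by field_simp
    have h7 : (‖y₁‖ / s) ^ M * (P * (‖y₂‖ / s) ^ M) * ‖y₁‖ =
        (‖y₂‖ / s) ^ M * (P * (‖y₁‖ / s) ^ M) * ‖y₁‖ := by ring
    rw [k1, k2] at h7
    have h8 : (‖y₁‖ / s) ^ M * ‖y₂‖ = (‖y₂‖ / s) ^ M * ‖y₁‖ := by
      have h9 : (‖W.leadingCoeff‖ / (‖A.leadingCoeff‖ * ‖B.leadingCoeff‖) * ‖y₁‖) *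
          ((‖y₁‖ / s) ^ M * ‖y₂‖) = (‖W.leadingCoeff‖ / (‖A.leadingCoeff‖ * ‖B.leadingCoeff‖) *
          ‖y₁‖) * ((‖y₂‖ / s) ^ M * ‖y₁‖) := by linarith
      exact mul_left_cancel₀ (mul_pos hL hy10).ne' h9
    rw [zpow_one, h6, div_zpow, ← h6, div_eq_div_iff (by positivity) (by positivity), h8]
    ring
  refine zpow_right_injective₀ (div_pos hy10 hy20) ?_ h5
  rw [ne_eq, div_eq_one_iff_eq hy20.ne']
  exact hy3.ne

theorem mult_root [CharZero Ω] (A U V W : Polynomial Ω) (hA : A ≠ 0) (hW : W = derivative A * U + A * V)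
    (hW0 : W ≠ 0) (x : Ω) (hx : A.eval x = 0) (hU : U.eval x ≠ 0) : mu W x + 1 = mu A x := by
  have he : A.derivative.rootMultiplicity x = A.rootMultiplicity x - 1 :=
    derivative_rootMultiplicity_of_root hx
  have he1 : 1 ≤ A.rootMultiplicity x := (rootMultiplicity_pos hA).2 hx
  have hA' : A.derivative ≠ 0 := fun h => by
    have h1 := derivative_eq_zero.1 h
    have h2 := eq_C_of_natDegree_eq_zero h1
    rw [h2, eval_C] at hx
    rw [hx, C_0] at h2
    exact hA h2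
  have hdA : (X - C x) ^ A.rootMultiplicity x ∣ A := (le_rootMultiplicity_iff hA).1 le_rfl
  have h1 : A.rootMultiplicity x - 1 ≤ W.rootMultiplicity x := by
    rw [le_rootMultiplicity_iff hW0, hW]
    refine dvd_add (Dvd.dvd.mul_right ?_ _) (Dvd.dvd.mul_right ?_ _)
    · rw [← he]
      exact (le_rootMultiplicity_iff hA').1 le_rfl
    · exact (pow_dvd_pow _ (Nat.sub_le _ _)).trans hdA
  have h2 : ¬ A.rootMultiplicity x ≤ W.rootMultiplicity x := by
    rw [le_rootMultiplicity_iff hW0, hW]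
    intro h
    have h3 : (X - C x) ^ A.rootMultiplicity x ∣ derivative A * U :=
      (dvd_add_left (Dvd.dvd.mul_right hdA _)).1 h
    have hcop : IsCoprime ((X - C x) ^ A.rootMultiplicity x) U := by
      refine IsCoprime.pow_left ((irreducible_X_sub_C x).coprime_iff_not_dvd.2 fun h4 => ?_)
      rw [dvd_iff_isRoot] at h4
      exact hU h4
    have h5 := hcop.dvd_of_dvd_mul_right h3
    rw [← le_rootMultiplicity_iff hA', he] at h5
    omega
  unfold mu
  omega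

theorem mu_eq_zero (P : Polynomial Ω) (x : Ω) (h : P.eval x ≠ 0) : mu P x = 0 := by
  unfold mu
  rw [rootMultiplicity_eq_zero h]
  rfl

theorem inv_main (hn : ∀ n : ℕ, n ≠ 0 → ‖(n : Ω)‖ = 1) (hx : ∃ x : Ω, x ≠ 0 ∧ ‖x‖ < 1)
    (A B : Polynomial Ω) (hcop : IsCoprime A B) (hdeg : B.natDegree < A.natDegree) (hA0 : A.eval 0 = 0)
    (hA1 : (derivative A).eval 0 ≠ 0) (κ : ℝ) (hκ : 0 < κ)
    (hcrit : ∀ y, (derivative A * B - A * derivative B).eval y = 0 → B.eval y ≠ 0 →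
      A.eval y ≠ 0 → κ ≤ ‖A.eval y / B.eval y‖) (α₁ : Ω) (hα₁ : α₁ ≠ 0) (hAα₁ : A.eval α₁ = 0) :
    κ ≤ ‖(derivative A).eval 0 / B.eval 0‖ * ‖α₁‖ := by
  classical
  by_contra hcon
  rw [not_le] at hcon
  have : CharZero Ω := charZero_of_inj_zero fun n h => by
    by_contra hc
    have := hn n hc
    rw [h, norm_zero] at this
    exact zero_ne_one this
  have hA : A ≠ 0 := fun h => by rw [h, natDegree_zero] at hdeg; exact absurd hdeg (Nat.not_lt_zero _)
  have hnc : ∀ x, A.eval x = 0 → B.eval x ≠ 0 := fun x h1 h2 => by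
    obtain ⟨u, v, huv⟩ := hcop
    have := congrArg (eval x) huv
    rw [eval_add, eval_mul, eval_mul, h1, h2, mul_zero, mul_zero, add_zero, eval_one] at this
    exact zero_ne_one this
  have hB : B ≠ 0 := fun h => hnc 0 hA0 (by rw [h, eval_zero])
  -- the smallest nonzero root
  obtain ⟨α, hαm, hαmin⟩ := Finset.exists_min_image (A.roots.toFinset.erase 0) (fun x => ‖x‖)
    ⟨α₁, Finset.mem_erase.2 ⟨hα₁, by rw [Multiset.mem_toFinset, mem_roots hA]; exact hAα₁⟩⟩
  have hα : α ≠ 0 := (Finset.mem_erase.1 hαm).1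
  have hAα : A.eval α = 0 := by
    have := (Finset.mem_erase.1 hαm).2
    rw [Multiset.mem_toFinset, mem_roots hA] at this
    exact this
  have hmin : ∀ x, x ≠ 0 → A.eval x = 0 → ‖α‖ ≤ ‖x‖ := fun x h1 h2 =>
    hαmin x (Finset.mem_erase.2 ⟨h1, by rw [Multiset.mem_toFinset, mem_roots hA]; exact h2⟩)
  set lam : Ω := (derivative A).eval 0 / B.eval 0 with hlam
  have hr : ‖lam‖ * ‖α‖ < κ :=
    (mul_le_mul_of_nonneg_left (hmin α₁ hα₁ hAα₁) (norm_nonneg _)).trans_lt hcon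
  set W : Polynomial Ω := derivative A * B - A * derivative B with hW
  set S : Finset Ω := A.roots.toFinset ∪ B.roots.toFinset ∪ W.roots.toFinset with hS
  have hSA : ∀ x, A.eval x = 0 → x ∈ S := fun x h => by
    simp only [hS, Finset.mem_union, Multiset.mem_toFinset, mem_roots hA, IsRoot.def]
    exact Or.inl (Or.inl h)
  have hSB : ∀ x, B.eval x = 0 → x ∈ S := fun x h => by
    simp only [hS, Finset.mem_union, Multiset.mem_toFinset, mem_roots hB, IsRoot.def]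
    exact Or.inl (Or.inr h)
  have hSW : W ≠ 0 → ∀ x, W.eval x = 0 → x ∈ S := fun hW0 x h => by
    simp only [hS, Finset.mem_union, Multiset.mem_toFinset, mem_roots hW0, IsRoot.def]
    exact Or.inr h
  -- `W` is not zero
  have hsum : ∑ x ∈ S, (mu A x - mu B x) = (A.natDegree : ℤ) - B.natDegree := by
    rw [Finset.sum_sub_distrib, sum_mu A hA S hSA, sum_mu B hB S hSB]
  have hW0 : W ≠ 0 := by
    refine (hurwitz hn hx A B W hA hB hW S hSA hSB hSW 0 (∑ x ∈ S, ‖x‖ + 1) (by positivity)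
      ?_).1
    unfold Num
    rw [Finset.filter_true_of_mem, hsum]
    · omega
    · intro x hxS
      rw [sub_zero]
      exact lt_of_le_of_lt (Finset.single_le_sum (f := fun x => ‖x‖)
        (fun _ _ => norm_nonneg _) hxS) (lt_add_one _)
  have hmA : ∀ x, A.eval x = 0 → mu A x + mu B x - mu W x = 1 := fun x h => by
    have h1 := mult_root A B (-derivative B) W hA (by rw [hW]; ring) hW0 x h (hnc x h)
    have h2 := mu_eq_zero B x (hnc x h)
    omega
  have hmB : ∀ x, B.eval x = 0 → mu A x + mu B x - mu W x = 1 := fun x h => by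
    have h3 : A.eval x ≠ 0 := fun h' => hnc x h' h
    have h1 := mult_root B (-A) (derivative A) W hB (by rw [hW]; ring) hW0 x h
      (by rw [eval_neg]; exact neg_ne_zero.2 h3)
    have h2 := mu_eq_zero A x h3
    omega
  have hlA : 0 < ‖A.leadingCoeff‖ := norm_pos_iff.2 (leadingCoeff_ne_zero.2 hA)
  have hlB : 0 < ‖B.leadingCoeff‖ := norm_pos_iff.2 (leadingCoeff_ne_zero.2 hB)
  refine core S (fun x => mu A x - mu B x) (fun x => mu A x + mu B x - mu W x)
    (‖A.leadingCoeff‖ / ‖B.leadingCoeff‖) (‖lam‖ * ‖α‖) (div_pos hlA hlB) ?_ ?_ (hSA 0 hA0)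
    (hmA 0 hA0).ge α hα (hSA α hAα) (hmA α hAα).ge ?_ ?_
  · intro c s hs hN
    exact (hurwitz hn hx A B W hA hB hW S hSA hSB hSW c s hs hN).2
  · intro x hxS hmx
    have hAx : A.eval x ≠ 0 := fun h => by
      have := hmA x h
      omega
    have hBx : B.eval x ≠ 0 := fun h => by
      have := hmB x h
      omega
    have h1 := mu_eq_zero A x hAx
    have h2 := mu_eq_zero B x hBx
    have hWx : W.eval x = 0 := by
      by_contra hc
      have := mu_eq_zero W x hc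
      omega
    refine ⟨by omega, ?_⟩
    refine hr.trans_le ((hcrit x hWx hBx hAx).trans (le_of_eq ?_))
    rw [norm_div, norm_eval A hA S hSA x, norm_eval B hB S hSB x, mul_div_mul_comm,
      ← Finset.prod_div_distrib]
    congr 1
    refine Finset.prod_congr rfl fun y hy => ?_
    rw [norm_sub_rev]
    rcases eq_or_ne y x with rfl | hyx
    · rw [h1, h2]; simp
    · rw [zpow_sub₀ (norm_ne_zero_iff.2 (sub_ne_zero.2 hyx))]
  · intro s hs hsα
    have hsplit : Psi S (fun x => mu A x - mu B x) 0 s = Psi S (mu A) 0 s / Psi S (mu B) 0 s := by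
      unfold Psi
      rw [← Finset.prod_div_distrib]
      exact Finset.prod_congr rfl fun x _ => zpow_sub₀ (lt_max_of_lt_left hs).ne' _ _
    rw [hsplit, div_mul_div_comm]
    have hB1 : ‖B.eval 0‖ ≤ ‖B.leadingCoeff‖ * Psi S (mu B) 0 s := by
      rw [norm_eval B hB S hSB 0]
      refine mul_le_mul_of_nonneg_left ?_ hlB.le
      unfold Psi
      refine Finset.prod_le_prod (fun x _ => by positivity) fun x _ => ?_
      rw [norm_sub_rev]
      unfold mu
      rw [zpow_natCast, zpow_natCast]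
      exact pow_le_pow_left₀ (norm_nonneg _) (le_max_right _ _) _
    have hA2 : ‖A.leadingCoeff‖ * Psi S (mu A) 0 s = s * ‖(derivative A).eval 0‖ := by
      obtain ⟨A₁, hA₁⟩ : (X : Polynomial Ω) ∣ A := by
        rw [← sub_zero (X : Polynomial Ω), ← C_0, dvd_iff_isRoot]
        exact hA0
      have hA₁0 : A₁ ≠ 0 := fun h => hA (by rw [hA₁, h, mul_zero])
      have hd : (derivative A).eval 0 = A₁.eval 0 := by
        rw [hA₁, derivative_mul, derivative_X, one_mul, eval_add, eval_mul, eval_X, zero_mul,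
          add_zero]
      have hlc : A.leadingCoeff = A₁.leadingCoeff := by
        rw [hA₁, leadingCoeff_mul, leadingCoeff_X, one_mul]
      have hS1 : ∀ x, A₁.eval x = 0 → x ∈ S := fun x h => hSA x (by rw [hA₁, eval_mul, h, mul_zero])
      have hmu0 : mu A₁ 0 = 0 := mu_eq_zero A₁ 0 (by rw [← hd]; exact hA1)
      have hmu : ∀ x, mu A x = mu A₁ x + if x = 0 then 1 else 0 := fun x => by
        unfold mu
        have : A = (X - C 0) * A₁ := by rw [C_0, sub_zero]; exact hA₁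
        rw [this, rootMultiplicity_mul (mul_ne_zero (X_sub_C_ne_zero 0) hA₁0),
          rootMultiplicity_X_sub_C]
        push_cast
        ring
      rw [hd, norm_eval A₁ hA₁0 S hS1 0, hlc]
      have h1 : Psi S (mu A) 0 s = (∏ x ∈ S, ‖0 - x‖ ^ mu A₁ x) * s := by
        unfold Psi
        rw [← Finset.mul_prod_erase S _ (hSA 0 hA0),
          ← Finset.mul_prod_erase S (fun x => ‖0 - x‖ ^ mu A₁ x) (hSA 0 hA0)]
        rw [hmu0, zpow_zero, one_mul, mul_comm]
        congr 1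
        · refine Finset.prod_congr rfl fun x hxS => ?_
          have hx0 : x ≠ 0 := (Finset.mem_erase.1 hxS).1
          rw [hmu x, if_neg hx0, add_zero, norm_sub_rev]
          by_cases hAx : A₁.eval x = 0
          · have hAx' : A.eval x = 0 := by rw [hA₁, eval_mul, hAx, mul_zero]
            rw [max_eq_right]
            rw [zero_sub, norm_neg]
            exact hsα.trans (hmin x hx0 hAx')
          · rw [mu_eq_zero A₁ x hAx, zpow_zero, zpow_zero]
        · rw [hmu 0, if_pos rfl, hmu0, sub_zero, norm_zero, max_eq_left hs.le, zero_add, zpow_one]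
      rw [h1]
      ring
    have hB0 : 0 < ‖B.eval 0‖ := norm_pos_iff.2 (hnc 0 hA0)
    rw [hA2, hlam, norm_div, div_mul_eq_mul_div, mul_comm s]
    gcongr
  · rw [hsum]
    omega

end Pool.Agent.Q135.OP
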