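import Pool.Agent.Q103.OP.Defs
import Pool.Agent.Q135.OP.Main

/-!
# Project OP, job INV
-/

set_option autoImplicit false

namespace Pool.Agent.Q135.OP

open Polynomial Pool.Agent.Q103.OP

universe u

theorem t_INV : S_INV.{u} := fun Ω _ _ _ hn hx A B hcop hdeg hA0 hA1 κ hκ hcrit α hα hAα =>
  inv_main hn hx A B hcop hdeg hA0 hA1 κ hκ hcrit α hα hAα

end Pool.Agent.Q135.OP
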