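import Mathlib

/-!
# Project OP, job INV, part 1: the combinatorial core
-/

set_option autoImplicit false
set_option linter.unusedSectionVars false
set_option linter.unusedVariables false

namespace Pool.Agent.Q135.OP

open Finset

variable {Ω : Type*} [NormedField Ω] [IsUltrametricDist Ω]

theorem norm_sub_le_max' (a b : Ω) : ‖a - b‖ ≤ max ‖a‖ ‖b‖ := by
  have := IsUltrametricDist.norm_add_le_max a (-b)
  rwa [← sub_eq_add_neg, norm_neg] at this

/-- products of Gauss norms of linear factors on the disc of radius `s` about `c` -/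
noncomputable def Psi (S : Finset Ω) (f : Ω → ℤ) (c : Ω) (s : ℝ) : ℝ :=
  ∏ x ∈ S, (max s ‖x - c‖) ^ f x

open Classical in
/-- the sum over the open disc -/
noncomputable def Num (S : Finset Ω) (f : Ω → ℤ) (c : Ω) (s : ℝ) : ℤ :=
  ∑ x ∈ S.filter (fun x => ‖x - c‖ < s), f x

theorem Psi_pos (S : Finset Ω) (f : Ω → ℤ) (c : Ω) {s : ℝ} (hs : 0 < s) : 0 < Psi S f c s :=
  Finset.prod_pos fun x _ => zpow_pos (lt_max_of_lt_left hs) _

theorem zpow_sum' {ι : Type*} (S : Finset ι) (f : ι → ℤ) {a : ℝ} (ha : a ≠ 0) :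
    a ^ (∑ x ∈ S, f x) = ∏ x ∈ S, a ^ f x := by
  classical
  induction S using Finset.induction_on with
  | empty => simp
  | insert x S hx ih => rw [Finset.sum_insert hx, Finset.prod_insert hx, zpow_add₀ ha, ih]

theorem Psi_ratio (S : Finset Ω) (f : Ω → ℤ) (c : Ω) {t s : ℝ} (ht : 0 < t) (hts : t ≤ s)
    (h : ∀ x ∈ S, ‖x - c‖ < s → ‖x - c‖ ≤ t) :
    Psi S f c t = Psi S f c s * (t / s) ^ Num S f c s := by
  classical
  have hs : 0 < s := ht.trans_le hts
  unfold Psi Num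
  rw [Finset.sum_filter, zpow_sum' _ _ (div_pos ht hs).ne', ← Finset.prod_mul_distrib]
  refine Finset.prod_congr rfl fun x hx => ?_
  split_ifs with hxs
  · rw [max_eq_left (h x hx hxs), max_eq_left hxs.le, ← mul_zpow, mul_div_cancel₀ _ hs.ne']
  · rw [not_lt] at hxs
    rw [max_eq_right (hts.trans hxs), max_eq_right hxs, zpow_zero, mul_one]

theorem gap_below (S : Finset Ω) (c : Ω) {s : ℝ} (hs : 0 < s) :
    ∃ s₀, 0 < s₀ ∧ s₀ < s ∧ ∀ x ∈ S, ‖x - c‖ < s → ‖x - c‖ ≤ s₀ := by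
  classical
  induction S using Finset.induction_on with
  | empty => exact ⟨s / 2, by linarith, by linarith, by simp⟩
  | insert x S hx ih =>
    obtain ⟨s₀, h1, h2, h3⟩ := ih
    by_cases hxs : ‖x - c‖ < s
    · refine ⟨max s₀ ‖x - c‖, lt_max_of_lt_left h1, max_lt h2 hxs, fun y hy hys => ?_⟩
      rcases Finset.mem_insert.1 hy with rfl | hy
      · exact le_max_right _ _
      · exact (h3 y hy hys).trans (le_max_left _ _)
    · refine ⟨s₀, h1, h2, fun y hy hys => ?_⟩
      rcases Finset.mem_insert.1 hy with rfl | hy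
      · exact absurd hys hxs
      · exact h3 y hy hys

theorem gap_above (S : Finset Ω) (c : Ω) (s : ℝ) :
    ∃ s₁, s < s₁ ∧ ∀ x ∈ S, ‖x - c‖ < s₁ → ‖x - c‖ ≤ s := by
  classical
  induction S using Finset.induction_on with
  | empty => exact ⟨s + 1, by linarith, by simp⟩
  | insert x S hx ih =>
    obtain ⟨s₁, h1, h2⟩ := ih
    by_cases hxs : ‖x - c‖ ≤ s
    · refine ⟨s₁, h1, fun y hy hys => ?_⟩
      rcases Finset.mem_insert.1 hy with rfl | hy
      · exact hxs
      · exact h2 y hy hys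
    · rw [not_le] at hxs
      refine ⟨min s₁ ‖x - c‖, lt_min h1 hxs, fun y hy hys => ?_⟩
      rcases Finset.mem_insert.1 hy with rfl | hy
      · exact absurd hys (not_lt.2 (min_le_right _ _))
      · exact h2 y hy (hys.trans_le (min_le_left _ _))

theorem Psi_cont (S : Finset Ω) (f : Ω → ℤ) (c : Ω) : ContinuousOn (Psi S f c) (Set.Ioi 0) := by
  unfold Psi
  refine continuousOn_finsetProd _ fun x _ => ?_
  refine ContinuousOn.zpow₀ (Continuous.continuousOn (by fun_prop)) _ fun s hs => Or.inl ?_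
  exact (lt_max_of_lt_left hs).ne'

theorem Psi_center (S : Finset Ω) (f : Ω → ℤ) {c c' : Ω} {s : ℝ} (h : ‖c' - c‖ ≤ s) :
    Psi S f c' s = Psi S f c s := by
  unfold Psi
  refine Finset.prod_congr rfl fun x _ => ?_
  congr 1
  have key : ∀ c c' : Ω, ‖c' - c‖ ≤ s → max s ‖x - c'‖ ≤ max s ‖x - c‖ := fun c c' h => by
    refine max_le (le_max_left _ _) ?_
    have := norm_sub_le_max' (x - c) (c' - c)
    rw [sub_sub_sub_cancel_right] at this
    exact this.trans (max_le (le_max_right _ _) (h.trans (le_max_left _ _)))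
  exact le_antisymm (key c c' h) (key c' c (by rwa [norm_sub_rev]))

theorem open_set (S : Finset Ω) (f : Ω → ℤ) (c : Ω) (K r : ℝ) :
    IsOpen {s : ℝ | 0 < s ∧ r < K * Psi S f c s} := by
  have := ((Psi_cont S f c).const_mul K).isOpen_inter_preimage isOpen_Ioi (isOpen_Ioi (a := r))
  exact this

theorem core (S : Finset Ω) (ν m : Ω → ℤ) (K r : ℝ) (hK : 0 < K)
    (H1 : ∀ c : Ω, ∀ s : ℝ, 0 < s → Num S ν c s ≠ 0 → Num S m c s = 1)
    (H2 : ∀ x ∈ S, m x < 0 → ν x = 0 ∧ r < K * ∏ y ∈ S, ‖y - x‖ ^ ν y)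
    (h0 : (0 : Ω) ∈ S) (hm0 : 1 ≤ m 0) (α : Ω) (hα : α ≠ 0) (hαS : α ∈ S) (hmα : 1 ≤ m α)
    (H4 : ∀ s, 0 < s → s ≤ ‖α‖ → K * Psi S ν 0 s ≤ r)
    (H5 : 1 ≤ ∑ x ∈ S, ν x) : False := by
  classical
  have hαn : 0 < ‖α‖ := norm_pos_iff.2 hα
  -- step 1
  obtain ⟨b, hb⟩ : ∃ b : ℝ, ∀ x ∈ S, ‖x‖ ≤ b := by
    refine ⟨∑ x ∈ S, ‖x‖, fun x hx => Finset.single_le_sum (f := fun x => ‖x‖)
      (fun _ _ => norm_nonneg _) hx⟩
  have hbig : ∃ s : ℝ, 0 < s ∧ r < K * Psi S ν 0 s := by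
    set s : ℝ := max b (max 1 (r / K + 1)) with hs
    have hs1 : 1 ≤ s := (le_max_left _ _).trans (le_max_right _ _)
    have hs2 : r / K + 1 ≤ s := (le_max_right _ _).trans (le_max_right _ _)
    refine ⟨s, by linarith, ?_⟩
    have h1 : Psi S ν 0 s = s ^ ∑ x ∈ S, ν x := by
      rw [zpow_sum' _ _ (by linarith : s ≠ 0)]
      unfold Psi
      refine Finset.prod_congr rfl fun x hx => ?_
      rw [sub_zero, max_eq_left ((hb x hx).trans (le_max_left _ _))]
    rw [h1]
    have h2 : s ^ (1 : ℤ) ≤ s ^ ∑ x ∈ S, ν x := zpow_le_zpow_right₀ hs1 H5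
    rw [zpow_one] at h2
    have h3 : r / K < s := by linarith
    rw [div_lt_iff₀ hK] at h3
    nlinarith
  -- step 2
  set T : Set ℝ := {s : ℝ | 0 < s ∧ r < K * Psi S ν 0 s} with hT
  have hTo : IsOpen T := open_set S ν 0 K r
  have hTb : ∀ s ∈ T, ‖α‖ ≤ s := fun s hs => by
    by_contra hc
    exact absurd (H4 s hs.1 (not_le.1 hc).le) (not_le.2 hs.2)
  have hTbb : BddBelow T := ⟨‖α‖, hTb⟩
  have hTn : T.Nonempty := hbig
  set R : ℝ := sInf T with hR
  have hαR : ‖α‖ ≤ R := le_csInf hTn hTb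
  have hR0 : 0 < R := hαn.trans_le hαR
  have hRT : R ∉ T := fun h => by
    obtain ⟨ε, hε, hball⟩ := Metric.isOpen_iff.1 hTo R h
    have : R - ε / 2 ∈ T := hball (by
      rw [Metric.mem_ball, Real.dist_eq]
      rw [show R - ε / 2 - R = -(ε / 2) by ring, abs_neg, abs_of_pos (by linarith)]
      linarith)
    have := csInf_le hTbb this
    linarith
  have hRle : ∀ s, 0 < s → s ≤ R → K * Psi S ν 0 s ≤ r := fun s hs hsR => by
    by_contra hc
    have hsT : s ∈ T := ⟨hs, not_le.1 hc⟩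
    have := csInf_le hTbb hsT
    have h2 : s = R := le_antisymm hsR this
    exact hRT (h2 ▸ hsT)
  obtain ⟨R₁, hRR₁, hgap⟩ := gap_above S 0 R
  obtain ⟨t, htT, htR₁⟩ := exists_lt_of_csInf_lt hTn hRR₁
  have hRt : R < t := lt_of_le_of_ne (csInf_le hTbb htT) (fun h => hRT (h ▸ htT))
  have hclosed : ∀ x ∈ S, ‖x - 0‖ < t → ‖x - 0‖ ≤ R := fun x hx h => hgap x hx (h.trans htR₁)
  have hM : Num S m 0 t = 1 := by
    refine H1 0 t htT.1 fun hN => ?_
    have := Psi_ratio S ν 0 hR0 hRt.le hclosed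
    rw [hN, zpow_zero, mul_one] at this
    have h1 := hRle R hR0 le_rfl
    have h2 := htT.2
    rw [this] at h1
    linarith
  -- step 3
  set Tx : Ω → Set ℝ := fun x => {s : ℝ | (0 < s ∧ r < K * Psi S ν x s) ∧ s < R} with hTx
  have hTxo : ∀ x, IsOpen (Tx x) := fun x => (open_set S ν x K r).inter isOpen_Iio
  have hTxb : ∀ x, BddAbove (Tx x) := fun x => ⟨R, fun s hs => hs.2.le⟩
  set τ : Ω → ℝ := fun x => sSup (Tx x) with hτ
  have hτe : ∀ x, Tx x = ∅ → τ x = 0 := fun x h => by simp only [hτ, h, Real.sSup_empty]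
  have hτp : ∀ x, (Tx x).Nonempty → 0 < τ x := fun x h => by
    obtain ⟨s, hs⟩ := h
    exact hs.1.1.trans_le (le_csSup (hTxb x) hs)
  have hτR : ∀ x, τ x ≤ R := fun x => by
    rcases (Tx x).eq_empty_or_nonempty with h | h
    · rw [hτe x h]; exact hR0.le
    · exact csSup_le h fun s hs => hs.2.le
  have hτm : ∀ x, (Tx x).Nonempty → τ x ∉ Tx x := fun x _ h => by
    obtain ⟨ε, hε, hball⟩ := Metric.isOpen_iff.1 (hTxo x) (τ x) h
    have : τ x + ε / 2 ∈ Tx x := hball (by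
      rw [Metric.mem_ball, Real.dist_eq]
      rw [show τ x + ε / 2 - τ x = ε / 2 by ring, abs_of_pos (by linarith)]
      linarith)
    have := le_csSup (hTxb x) this
    linarith
  have hb1 : ∀ x, ‖x‖ ≤ R → (Tx x).Nonempty → Num S m x (τ x) = 1 := fun x hxR hne => by
    have hτ0 := hτp x hne
    have hle : K * Psi S ν x (τ x) ≤ r := by
      rcases (hτR x).lt_or_eq with h | h
      · by_contra hc
        exact hτm x hne ⟨⟨hτ0, not_le.1 hc⟩, h⟩
      · rw [h, Psi_center S ν (c := 0) (c' := x) (by rwa [sub_zero])]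
        exact hRle R hR0 le_rfl
    refine H1 x (τ x) hτ0 fun hN => ?_
    obtain ⟨s₀, h1, h2, h3⟩ := gap_below S x hτ0
    obtain ⟨s, hs, hs0⟩ := exists_lt_of_lt_csSup hne h2
    have hsτ : s ≤ τ x := le_csSup (hTxb x) hs
    have := Psi_ratio S ν x hs.1.1 hsτ (fun y hy h => (h3 y hy h).trans hs0.le)
    rw [hN, zpow_zero, mul_one] at this
    have h4 := hs.1.2
    rw [this] at h4
    linarith
  have hτc : ∀ x y : Ω, ‖y - x‖ < τ x → τ y = τ x := fun x y hxy => by
    have hne : (Tx x).Nonempty := by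
      by_contra hc
      rw [Set.not_nonempty_iff_eq_empty] at hc
      rw [hτe x hc] at hxy
      exact absurd hxy (not_lt.2 (norm_nonneg _))
    have hiff : ∀ s, ‖y - x‖ ≤ s → (s ∈ Tx y ↔ s ∈ Tx x) := fun s hs => by
      simp only [hTx, Set.mem_ofPred_eq, Psi_center S ν hs]
    obtain ⟨s', hs', hs'2⟩ := exists_lt_of_lt_csSup hne hxy
    have hs'y : s' ∈ Tx y := (hiff s' hs'2.le).2 hs'
    refine le_antisymm (csSup_le ⟨s', hs'y⟩ fun s hs => ?_) (csSup_le hne fun s hs => ?_)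
    · rcases le_or_gt ‖y - x‖ s with h | h
      · exact le_csSup (hTxb x) ((hiff s h).1 hs)
      · exact (h.trans hxy).le
    · rcases le_or_gt ‖y - x‖ s with h | h
      · exact le_csSup (hTxb y) ((hiff s h).2 hs)
      · exact (h.trans hs'2).le.trans (le_csSup (hTxb y) hs'y)
  have hd : ∀ x ∈ S, Tx x = ∅ → 0 ≤ m x := fun x hx he => by
    by_contra hc
    obtain ⟨h1, h2⟩ := H2 x hx (not_le.1 hc)
    obtain ⟨s₁, hs₁, h3⟩ := gap_above S x 0
    have hmem : min (s₁ / 2) (R / 2) ∈ Tx x := by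
      refine ⟨⟨lt_min (by linarith) (by linarith), ?_⟩, (min_le_right _ _).trans_lt (by linarith)⟩
      have : Psi S ν x (min (s₁ / 2) (R / 2)) = ∏ y ∈ S, ‖y - x‖ ^ ν y := by
        unfold Psi
        refine Finset.prod_congr rfl fun y hy => ?_
        rcases lt_or_ge ‖y - x‖ s₁ with h | h
        · have h4 := h3 y hy h
          have h5 : y = x := by
            have := norm_eq_zero.1 (le_antisymm h4 (norm_nonneg _))
            exact sub_eq_zero.1 this
          rw [h5, h1, zpow_zero, zpow_zero]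
        · rw [max_eq_right]
          exact (min_le_left _ _).trans (by linarith)
      rwa [this]
    rw [he] at hmem
    exact hmem
  have hτ00 : Tx 0 = ∅ := by
    rw [Set.eq_empty_iff_forall_notMem]
    intro s hs
    exact absurd (hRle s hs.1.1 hs.2.le) (not_le.2 hs.1.2)
  -- step 4
  set V : Finset Ω := S.filter (fun x => ‖x - 0‖ < t) with hV
  have hVR : ∀ x ∈ V, ‖x‖ ≤ R := fun x hx => by
    have := hclosed x (Finset.mem_filter.1 hx).1 (Finset.mem_filter.1 hx).2
    rwa [sub_zero] at this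
  set cls : Ω → Finset Ω := fun x => V.filter (fun y => y = x ∨ ‖y - x‖ < τ x) with hcls
  have hc1 : ∀ x ∈ V, Tx x = ∅ → cls x = {x} := fun x hx he => by
    ext y
    simp only [hcls, Finset.mem_filter, Finset.mem_singleton]
    constructor
    · rintro ⟨_, h | h⟩
      · exact h
      · rw [hτe x he] at h
        exact absurd h (not_lt.2 (norm_nonneg _))
    · rintro rfl
      exact ⟨hx, Or.inl rfl⟩
  have hc2 : ∀ x ∈ V, (Tx x).Nonempty → ∑ y ∈ cls x, m y = 1 := fun x hx hne => by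
    rw [← hb1 x (hVR x hx) hne]
    unfold Num
    refine Finset.sum_congr ?_ fun _ _ => rfl
    ext y
    simp only [hcls, hV, Finset.mem_filter]
    constructor
    · rintro ⟨⟨h1, _⟩, h | h⟩
      · refine ⟨h1, ?_⟩
        rw [h, sub_self, norm_zero]
        exact hτp x hne
      · exact ⟨h1, h⟩
    · rintro ⟨h1, h2⟩
      refine ⟨⟨h1, ?_⟩, Or.inr h2⟩
      rw [sub_zero]
      have := IsUltrametricDist.norm_add_le_max (y - x) x
      rw [sub_add_cancel] at this
      exact this.trans_lt (max_lt ((h2.trans_le (hτR x)).trans hRt) ((hVR x hx).trans_lt hRt))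
  have hc3 : ∀ x ∈ V, 0 ≤ ∑ y ∈ cls x, m y := fun x hx => by
    rcases (Tx x).eq_empty_or_nonempty with h | h
    · rw [hc1 x hx h, Finset.sum_singleton]
      exact hd x (Finset.mem_filter.1 hx).1 h
    · rw [hc2 x hx h]; exact zero_le_one
  have hc4 : ∀ x ∈ V, 1 ≤ m x → 1 ≤ ∑ y ∈ cls x, m y := fun x hx hmx => by
    rcases (Tx x).eq_empty_or_nonempty with h | h
    · rw [hc1 x hx h, Finset.sum_singleton]
      exact hmx
    · rw [hc2 x hx h]
  -- the classes are disjoint or equal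
  have hsym : ∀ x y z : Ω, (z = x ∨ ‖z - x‖ < τ x) → (z = y ∨ ‖z - y‖ < τ y) →
      (y = x ∨ ‖y - x‖ < τ x) := fun x y z hx hy => by
    rcases hy with rfl | hy
    · exact hx
    rcases hx with rfl | hx
    · right
      rw [hτc y z hy, norm_sub_rev]
      exact hy
    · right
      have h1 := hτc x z hx
      have h2 := hτc y z hy
      have := norm_sub_le_max' (z - x) (z - y)
      rw [sub_sub_sub_cancel_left] at this
      refine this.trans_lt (max_lt hx ?_)
      rw [← h1, h2]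
      exact hy
  have hcl : ∀ V' : Finset Ω, V' ⊆ V → (∀ x ∈ V', cls x ⊆ V') → ∀ x ∈ V',
      ∀ y ∈ V' \ cls x, cls y ⊆ V' \ cls x := fun V' hV' hcV x hx y hy z hz => by
    rw [Finset.mem_sdiff] at hy ⊢
    refine ⟨hcV y hy.1 hz, fun hzx => hy.2 ?_⟩
    simp only [hcls, Finset.mem_filter] at hzx hz ⊢
    exact ⟨hV' hy.1, hsym x y z hzx.2 hz.2⟩
  have hself : ∀ x ∈ V, x ∈ cls x := fun x hx => Finset.mem_filter.2 ⟨hx, Or.inl rfl⟩
  -- step 5
  have hind : ∀ n : ℕ, ∀ V' : Finset Ω, V'.card ≤ n → V' ⊆ V → (∀ x ∈ V', cls x ⊆ V') →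
      0 ≤ ∑ x ∈ V', m x := by
    intro n
    induction n with
    | zero =>
      intro V' h _ _
      rw [Finset.card_eq_zero.1 (Nat.le_zero.1 h), Finset.sum_empty]
    | succ n ih =>
      intro V' h hV' hcV
      rcases V'.eq_empty_or_nonempty with rfl | ⟨x, hx⟩
      · simp
      · have hsub := hcV x hx
        rw [← Finset.sum_sdiff hsub]
        refine add_nonneg (ih _ ?_ (Finset.sdiff_subset.trans hV') (hcl V' hV' hcV x hx))
          (hc3 x (hV' hx))
        have h1 : (V' \ cls x).card < V'.card := by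
          refine Finset.card_lt_card ⟨Finset.sdiff_subset, fun h2 => ?_⟩
          exact (Finset.mem_sdiff.1 (h2 hx)).2 (hself x (hV' hx))
        omega
  -- step 6
  have h0V : (0 : Ω) ∈ V := Finset.mem_filter.2 ⟨h0, by rw [sub_zero, norm_zero]; exact htT.1⟩
  have hαV : α ∈ V := Finset.mem_filter.2 ⟨hαS, by rw [sub_zero]; exact hαR.trans_lt hRt⟩
  have hclV : ∀ x ∈ V, cls x ⊆ V := fun x _ => Finset.filter_subset _ _
  have hα0 : α ∈ V \ cls 0 := by
    refine Finset.mem_sdiff.2 ⟨hαV, fun h => ?_⟩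
    rw [hc1 0 h0V hτ00, Finset.mem_singleton] at h
    exact hα h
  have hcl1 := hcl V subset_rfl hclV 0 h0V
  have hcl2 := hcl (V \ cls 0) Finset.sdiff_subset hcl1 α hα0
  have hfin := hind _ _ le_rfl (Finset.sdiff_subset.trans Finset.sdiff_subset) hcl2
  have hs1 := Finset.sum_sdiff (f := m) (hclV 0 h0V)
  have hs2 := Finset.sum_sdiff (f := m) (hcl1 α hα0)
  have h4 := hc4 0 h0V hm0
  have h5 := hc4 α hαV hmα
  have h6 : ∑ x ∈ V, m x = 1 := hM
  linarith

end Pool.Agent.Q135.OP
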